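import Pool.Agent.H23.DZ.Targets

/-! Elementary inequalities for the local and the global analytic conductor. -/

set_option autoImplicit false

open Complex

namespace Pool.Agent.H73.DZ

open Pool.Agent.H23.GLM Pool.Agent.H23.GLH Pool.Agent.H23.DZ

variable {m : ℕ}

lemma one_le_Q (π : LData m) (t : ℝ) : 1 ≤ π.Q t := by
  refine one_le_mul_of_one_le_of_one_le π.one_le_N ?_
  calc (1:ℝ) = ∏ _j : Fin m, (1:ℝ) := by simp
    _ ≤ _ := Finset.prod_le_prod (fun _ _ => zero_le_one) fun j _ => by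
        linarith [norm_nonneg ((t : ℂ) * I - π.μ j)]

lemma Q_le_X (π : LData m) (t : ℝ) : π.Q t ≤ π.X t := by
  unfold LData.Q LData.X LData.C
  have h : ∏ j, (1 + ‖(t : ℂ) * I - π.μ j‖) ≤ (∏ j, (1 + ‖π.μ j‖)) * (1 + |t|) ^ m := by
    calc ∏ j, (1 + ‖(t : ℂ) * I - π.μ j‖) ≤ ∏ j, ((1 + ‖π.μ j‖) * (1 + |t|)) := by
          refine Finset.prod_le_prod (fun j _ => by positivity) fun j _ => ?_
          have h1 : ‖(t : ℂ) * I - π.μ j‖ ≤ |t| + ‖π.μ j‖ := by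
            refine (norm_sub_le _ _).trans ?_
            simp
          nlinarith [abs_nonneg t, norm_nonneg (π.μ j),
            mul_nonneg (abs_nonneg t) (norm_nonneg (π.μ j))]
      _ = _ := by
          rw [Finset.prod_mul_distrib, Finset.prod_const, Finset.card_univ, Fintype.card_fin]
  have hN := π.one_le_N
  calc (π.N : ℝ) * ∏ j, (1 + ‖(t : ℂ) * I - π.μ j‖)
      ≤ π.N * ((∏ j, (1 + ‖π.μ j‖)) * (1 + |t|) ^ m) := by gcongr
    _ = _ := by ring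

lemma Q_le (π : LData m) (t u : ℝ) : π.Q u ≤ (1 + |u - t|) ^ m * π.Q t := by
  unfold LData.Q
  have h : ∏ j, (1 + ‖(u : ℂ) * I - π.μ j‖) ≤
      (1 + |u - t|) ^ m * ∏ j, (1 + ‖(t : ℂ) * I - π.μ j‖) := by
    calc ∏ j, (1 + ‖(u : ℂ) * I - π.μ j‖) ≤
          ∏ j, ((1 + |u - t|) * (1 + ‖(t : ℂ) * I - π.μ j‖)) := by
          refine Finset.prod_le_prod (fun j _ => by positivity) fun j _ => ?_
          have h1 : ‖(u : ℂ) * I - π.μ j‖ ≤ |u - t| + ‖(t : ℂ) * I - π.μ j‖ := by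
            have e : (u : ℂ) * I - π.μ j = ((u - t : ℝ) : ℂ) * I + ((t : ℂ) * I - π.μ j) := by
              push_cast; ring
            rw [e]
            refine (norm_add_le _ _).trans ?_
            rw [norm_mul, norm_I, mul_one, norm_real, Real.norm_eq_abs]
          nlinarith [abs_nonneg (u - t), norm_nonneg ((t : ℂ) * I - π.μ j),
            mul_nonneg (abs_nonneg (u - t)) (norm_nonneg ((t : ℂ) * I - π.μ j))]
      _ = _ := by
          rw [Finset.prod_mul_distrib, Finset.prod_const, Finset.card_univ, Fintype.card_fin]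
  have hN := π.one_le_N
  calc (π.N : ℝ) * ∏ j, (1 + ‖(u : ℂ) * I - π.μ j‖)
      ≤ π.N * ((1 + |u - t|) ^ m * ∏ j, (1 + ‖(t : ℂ) * I - π.μ j‖)) := by gcongr
    _ = _ := by ring

lemma X_le (π : LData m) (t u : ℝ) : π.X u ≤ (1 + |u - t|) ^ m * π.X t := by
  unfold LData.X
  have hC := π.one_le_C
  have h : (1 + |u|) ^ m ≤ (1 + |u - t|) ^ m * (1 + |t|) ^ m := by
    rw [← mul_pow]
    refine pow_le_pow_left₀ (by positivity) ?_ _
    have h1 : |u| ≤ |u - t| + |t| := by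
      have := abs_add_le (u - t) t
      simpa using this
    nlinarith [abs_nonneg (u - t), abs_nonneg t, mul_nonneg (abs_nonneg (u - t)) (abs_nonneg t)]
  calc π.C * (1 + |u|) ^ m ≤ π.C * ((1 + |u - t|) ^ m * (1 + |t|) ^ m) := by gcongr
    _ = _ := by ring

/-- Enlarge the constant and the exponent. -/
lemma enlarge {y X c e C : ℝ} (hX : 1 ≤ X) (hc0 : 0 ≤ c) (hy : y ≤ c * X ^ e) (hc : c ≤ C)
    (he : e ≤ C) : y ≤ C * X ^ C := by
  have h0 : 0 < X := by linarith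
  have h1 : X ^ e ≤ X ^ C := Real.rpow_le_rpow_of_exponent_le hX he
  have h2 : 0 ≤ X ^ e := by positivity
  calc y ≤ c * X ^ e := hy
    _ ≤ C * X ^ C := by gcongr; linarith

/-- The functional equation as an upper bound, for every `x > 0`. -/
lemma refl_le (hR : RatioUpperStmt) (hFE : NormFEStmt) (A : ℝ) : ∃ C : ℝ, 1 ≤ C ∧
    ∀ (m : ℕ) (π : LData m) (x t : ℝ), 0 < x → x ≤ A → (x ≠ 1 / 2 ∨ t ≠ 0) →
    ‖π.L (1 / 2 - x + t * I)‖ ≤ C ^ m * π.X t ^ x * ‖π.L (1 / 2 + x + t * I)‖ := by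
  obtain ⟨C₀, hC₀, h₀⟩ := hR A
  set D : ℝ := 2 ^ |A| with hD
  have hD1 : 1 ≤ D := Real.one_le_rpow (by norm_num) (abs_nonneg _)
  refine ⟨C₀ * D, one_le_mul_of_one_le_of_one_le hC₀ hD1, ?_⟩
  intro m π x t hx hxA hxt
  rw [hFE m π x t hx hxt]
  have hN := π.one_le_N
  have h1 : ∏ j, ‖ratio (1 / 2 + t * I - π.μ j) x‖ ≤
      ∏ j, ((C₀ * D) * ((1 + |t|) ^ x * (1 + ‖π.μ j‖) ^ x)) := by
    refine Finset.prod_le_prod (fun j _ => norm_nonneg _) fun j _ => ?_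
    have hre : 0 ≤ (1 / 2 + t * I - π.μ j : ℂ).re := by
      have := π.re_μ_lt j
      simp
      linarith
    refine (h₀ x _ hx hxA hre).trans ?_
    have h4 : 1 + ‖(1 / 2 + t * I - π.μ j : ℂ)‖ ≤ 2 * ((1 + |t|) * (1 + ‖π.μ j‖)) := by
      have h5 : ‖(1 / 2 + t * I - π.μ j : ℂ)‖ ≤ 1 / 2 + |t| + ‖π.μ j‖ := by
        refine (norm_sub_le _ _).trans ?_
        have : ‖(1 / 2 : ℂ) + t * I‖ ≤ 1 / 2 + |t| := by
          refine (norm_add_le _ _).trans ?_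
          simp
        linarith
      have h6 := abs_nonneg t
      have h7 := norm_nonneg (π.μ j)
      nlinarith [mul_nonneg h6 h7]
    have h8 : (1 + ‖(1 / 2 + t * I - π.μ j : ℂ)‖) ^ x ≤
        D * ((1 + |t|) ^ x * (1 + ‖π.μ j‖) ^ x) := by
      have h9 : (2:ℝ) ^ x ≤ D :=
        Real.rpow_le_rpow_of_exponent_le (by norm_num) (hxA.trans (le_abs_self A))
      calc (1 + ‖(1 / 2 + t * I - π.μ j : ℂ)‖) ^ x
          ≤ (2 * ((1 + |t|) * (1 + ‖π.μ j‖))) ^ x := Real.rpow_le_rpow (by positivity) h4 hx.le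
        _ = 2 ^ x * ((1 + |t|) ^ x * (1 + ‖π.μ j‖) ^ x) := by
            rw [Real.mul_rpow (by positivity) (by positivity),
              Real.mul_rpow (by positivity) (by positivity)]
        _ ≤ _ := by gcongr
    calc C₀ * (1 + ‖(1 / 2 + t * I - π.μ j : ℂ)‖) ^ x
        ≤ C₀ * (D * ((1 + |t|) ^ x * (1 + ‖π.μ j‖) ^ x)) := by gcongr
      _ = _ := by ring
  have h2 : ∀ E : ℝ, ∏ j, (E * ((1 + |t|) ^ x * (1 + ‖π.μ j‖) ^ x)) =
      E ^ m * (((1 + |t|) ^ m) ^ x * (∏ j, (1 + ‖π.μ j‖)) ^ x) := by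
    intro E
    rw [Finset.prod_mul_distrib, Finset.prod_mul_distrib,
      Finset.prod_const, Finset.prod_const, Finset.card_univ, Fintype.card_fin]
    rw [Real.finsetProd_rpow _ _ fun j _ => by positivity]
    have e3 : ((1 + |t|) ^ x) ^ m = ((1 + |t|) ^ m) ^ x := by
      rw [← Real.rpow_natCast, ← Real.rpow_mul (by positivity), mul_comm,
        Real.rpow_mul (by positivity), Real.rpow_natCast]
    rw [e3]
  have hP := one_le_prod_one_add π.μ
  have e5 : π.X t ^ x = (π.N : ℝ) ^ x * (((1 + |t|) ^ m) ^ x * (∏ j, (1 + ‖π.μ j‖)) ^ x) := by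
    rw [LData.X, LData.C, Real.mul_rpow (by positivity) (by positivity),
      Real.mul_rpow (by positivity) (by positivity)]
    ring
  rw [e5]
  rw [h2] at h1
  have hL0 := norm_nonneg (π.L (1 / 2 + x + t * I))
  calc (π.N : ℝ) ^ x * (∏ j, ‖ratio (1 / 2 + t * I - π.μ j) x‖) * ‖π.L (1 / 2 + x + t * I)‖
      ≤ (π.N : ℝ) ^ x * ((C₀ * D) ^ m * (((1 + |t|) ^ m) ^ x * (∏ j, (1 + ‖π.μ j‖)) ^ x)) *
        ‖π.L (1 / 2 + x + t * I)‖ := by gcongr
    _ = _ := by ring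

/-- The bound of Molteni in a convenient form. -/
lemma molteni_pos {S : Set (LData m)} (hS : Molteni S) {ε : ℝ} (hε : 0 < ε) : ∃ B : ℝ, 1 ≤ B ∧
    ∀ π ∈ S, ∀ s : ℂ, 1 + ε ≤ s.re → ‖π.L s‖ ≤ B * π.C ^ ε := by
  obtain ⟨B₀, hB₀⟩ := hS ε hε
  refine ⟨max B₀ 1, le_max_right _ _, fun π hπ s hs => ?_⟩
  refine (hB₀ π hπ s hs).trans ?_
  have h1 := π.one_le_C
  have h2 : B₀ ≤ max B₀ 1 := le_max_left _ _
  gcongr

end Pool.Agent.H73.DZ
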