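import Pool.Agent.H73.DZ.Cond

/-! Polynomial growth of `L`-data to the left of the line `Re s = 5/8`. -/

set_option autoImplicit false

open Complex Set

namespace Pool.Agent.H73.DZ

open Pool.Agent.H23.GLM Pool.Agent.H23.GLH Pool.Agent.H23.DZ

variable {m : ℕ}

/-- The Riemann zeta function near the critical line. -/
lemma zeta_center {s : ℂ} (h0 : 1 / 4 ≤ s.re) (h1 : s.re ≤ 3 / 4) :
    ‖riemannZeta s‖ ≤ 112 * (1 + |s.im|) := by
  have h := norm_Fz_le h0
  rw [Fz_eq (by linarith) (ne_one_of_re_lt (by linarith)), norm_mul] at h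
  have h2 := (norm_ratio_le h0 h1).2
  have h3 := norm_nonneg (riemannZeta s)
  nlinarith

/-- The Riemann zeta function away from the pole. -/
lemma zeta_high {s : ℂ} (h0 : 1 / 4 ≤ s.re) (h1 : s.re ≤ 5 / 4) (ht : 1 ≤ |s.im|) :
    ‖riemannZeta s‖ ≤ 64 * (1 + |s.im|) := by
  have hs1 : s ≠ 1 := by
    rintro rfl
    simp at ht
    linarith
  have h := norm_Fz_le h0
  rw [Fz_eq (by linarith) hs1, norm_mul] at h
  have hpos : 0 < ‖s + 1‖ := norm_pos_iff.mpr (add_one_ne (by linarith))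
  have h2 : 1 / 4 ≤ ‖(s - 1) / (s + 1)‖ := by
    rw [norm_div, le_div_iff₀ hpos]
    have h4 : |s.im| ≤ ‖s - 1‖ := by
      have := Complex.abs_im_le_norm (s - 1)
      simpa using this
    have h5 : ‖s + 1‖ ≤ |s.re + 1| + |s.im| := by
      have := Complex.norm_le_abs_re_add_abs_im (s + 1)
      simpa using this
    rw [abs_of_pos (by linarith)] at h5
    linarith
  have h3 := norm_nonneg (riemannZeta s)
  nlinarith

/-- The Riemann zeta function on a compact set. -/
lemma zeta_compact : ∃ M : ℝ, 0 ≤ M ∧ ∀ s : ℂ, -(1 / 8) ≤ s.re → s.re ≤ 1 / 4 → |s.im| ≤ 1 →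
    ‖riemannZeta s‖ ≤ M := by
  have hK : IsCompact (Icc (-(1 / 8) : ℝ) (1 / 4) ×ℂ Icc (-1 : ℝ) 1) :=
    isCompact_Icc.reProdIm isCompact_Icc
  have hc : ContinuousOn riemannZeta (Icc (-(1 / 8) : ℝ) (1 / 4) ×ℂ Icc (-1 : ℝ) 1) := by
    intro s hs
    have h1 : s.re ≤ 1 / 4 := hs.1.2
    exact (differentiableAt_riemannZeta
      (ne_one_of_re_lt (by linarith))).continuousAt.continuousWithinAt
  obtain ⟨M, hM⟩ := hK.exists_bound_of_continuousOn hc
  refine ⟨max M 0, le_max_right _ _, fun s h1 h2 h3 => (hM s ?_).trans (le_max_left _ _)⟩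
  exact ⟨⟨h1, h2⟩, abs_le.mp h3⟩

/-- **F4.** Polynomial growth. -/
theorem growStmt (hL : LeftStmt) (hR : RatioUpperStmt) (hFE : NormFEStmt) : GrowStmt := by
  intro m S hS A
  obtain ⟨C₁, hC₁, h₁⟩ := hL m S hS A (1 / 8) (by norm_num)
  obtain ⟨B, hB1, hB⟩ := molteni_pos hS (ε := 1 / 4) (by norm_num)
  obtain ⟨C₂, hC₂, h₂⟩ := refl_le hR hFE 1
  obtain ⟨M, hM0, hM⟩ := zeta_compact
  have hAR := AR_ge
  have hG0 : 0 < (16 * AR) ^ m * B := by positivity
  have hH0 : 0 < (2 * AR) ^ m * ((16 * AR) ^ m * B) := by positivity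
  set C : ℝ := C₁ + |A| + (16 * AR) ^ m * B + (2 * AR) ^ m * ((16 * AR) ^ m * B) + M +
    64 * C₂ + 112 + 2 with hC
  have hA0 := abs_nonneg A
  have hC1 : 1 ≤ C := by linarith
  refine ⟨C, hC1, ?_⟩
  rintro ⟨π, hπ⟩ s hsA hs
  show ‖π.L s‖ ≤ C * π.X s.im ^ C
  have hX1 := π.one_le_X s.im
  have hX0 : 0 < π.X s.im := by linarith
  have hQ1 := one_le_Q π s.im
  have hQX := Q_le_X π s.im
  have him := abs_nonneg s.im
  rcases le_or_gt s.re (-(1 / 8)) with hcase | hcase
  · -- far left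
    have h := h₁ ⟨π, hπ⟩ s hsA (by linarith)
    simp only at h
    have hre : s.re = s.re := rfl
    have h2 : π.Q s.im ^ (1 / 2 - s.re) ≤ π.X s.im ^ (1 / 2 - s.re) :=
      Real.rpow_le_rpow (by linarith) hQX (by linarith)
    have h3 : ‖π.L s‖ ≤ C₁ * π.X s.im ^ (1 / 8 + (1 / 2 - s.re)) := by
      rw [Real.rpow_add hX0]
      refine h.trans ?_
      rw [mul_assoc]
      gcongr
    have h4 : -s.re ≤ |A| := by
      have := le_abs_self A
      linarith
    exact enlarge hX1 (by linarith) h3 (by linarith) (by linarith)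
  have e1 : (1 / 2 - ((1 / 2 - s.re : ℝ) : ℂ) + (s.im : ℂ) * I) = s := by
    apply Complex.ext
    · simp
    · simp
  set w : ℂ := 1 / 2 + ((1 / 2 - s.re : ℝ) : ℂ) + (s.im : ℂ) * I with hw
  have hwre : w.re = 1 - s.re := by
    rw [hw]; simp; ring
  have hwim : w.im = s.im := by
    rw [hw]; simp
  by_cases hd : Differentiable ℂ π.L
  · rcases le_or_gt (1 / 4) s.re with h4 | h4
    · have h := grow_entire π hd (LData.order hd) hB1
        (fun z hz => hB π hπ z (by linarith)) h4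
      have h5 : ‖π.L s‖ ≤ (16 * AR) ^ m * B * π.X s.im ^ (1 : ℝ) := by
        rw [Real.rpow_one]; exact h
      exact enlarge hX1 hG0.le h5 (by linarith) (by linarith)
    · have h := grow_entire π hd (LData.order hd) hB1
        (fun z hz => hB π hπ z (by linarith)) (s := w) (by rw [hwre]; linarith)
      rw [hwim] at h
      have h6 := π.refl hd.continuous (x := 1 / 2 - s.re) (by linarith) (by linarith) s.im
      rw [e1, ← hw] at h6
      have h7 : π.X s.im ^ (1 / 2 - s.re) ≤ π.X s.im := by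
        calc π.X s.im ^ (1 / 2 - s.re) ≤ π.X s.im ^ (1 : ℝ) :=
              Real.rpow_le_rpow_of_exponent_le hX1 (by linarith)
          _ = _ := Real.rpow_one _
      have h8 : ‖π.L s‖ ≤ (2 * AR) ^ m * ((16 * AR) ^ m * B) * π.X s.im ^ (2 : ℝ) := by
        have e2 : π.X s.im ^ (2 : ℝ) = π.X s.im * π.X s.im := by
          rw [Real.rpow_two, sq]
        rw [e2]
        have hh : (π.C * (1 + |s.im|) ^ m) = π.X s.im := rfl
        rw [hh] at h h6
        calc ‖π.L s‖ ≤ (2 * AR) ^ m * π.X s.im ^ (1 / 2 - s.re) * ‖π.L w‖ := h6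
          _ ≤ (2 * AR) ^ m * π.X s.im * ((16 * AR) ^ m * B * π.X s.im) := by gcongr
          _ = _ := by ring
      exact enlarge hX1 hH0.le h8 (by linarith) (by linarith)
  · obtain ⟨hm, hC1', hLz⟩ := LData.zeta_of hd
    have hXe : π.X s.im = 1 + |s.im| := by
      unfold LData.X
      rw [hC1', hm, pow_one, one_mul]
    rcases le_or_gt (1 / 4) s.re with h4 | h4
    · have h := zeta_center h4 (by linarith)
      have h5 : ‖π.L s‖ ≤ 112 * π.X s.im ^ (1 : ℝ) := by
        rw [Real.rpow_one, hXe, hLz]; exact h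
      exact enlarge hX1 (by norm_num) h5 (by linarith) (by linarith)
    · rcases le_or_gt |s.im| 1 with ht | ht
      · have h := hM s hcase.le h4.le ht
        have h5 : ‖π.L s‖ ≤ M * π.X s.im ^ (1 : ℝ) := by
          rw [Real.rpow_one, hLz]
          nlinarith
        exact enlarge hX1 hM0 h5 (by linarith) (by linarith)
      · have h := zeta_high (s := w) (by rw [hwre]; linarith) (by rw [hwre]; linarith)
          (by rw [hwim]; exact ht.le)
        have h6 := h₂ m π (1 / 2 - s.re) s.im (by linarith) (by linarith)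
          (Or.inr (by rintro h0; rw [h0] at ht; simp at ht; linarith))
        have hCm : C₂ ^ m = C₂ := by
          have : C₂ ^ m = C₂ ^ 1 := by congr 1
          rw [this, pow_one]
        rw [e1, ← hw, hCm, hLz] at h6
        rw [hwim] at h
        have h7 : π.X s.im ^ (1 / 2 - s.re) ≤ π.X s.im := by
          calc π.X s.im ^ (1 / 2 - s.re) ≤ π.X s.im ^ (1 : ℝ) :=
                Real.rpow_le_rpow_of_exponent_le hX1 (by linarith)
            _ = _ := Real.rpow_one _
        have h8 : ‖π.L s‖ ≤ 64 * C₂ * π.X s.im ^ (2 : ℝ) := by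
          have e2 : π.X s.im ^ (2 : ℝ) = π.X s.im * π.X s.im := by
            rw [Real.rpow_two, sq]
          rw [e2, hLz]
          rw [← hXe] at h
          calc ‖riemannZeta s‖ ≤ C₂ * π.X s.im ^ (1 / 2 - s.re) * ‖riemannZeta w‖ := h6
            _ ≤ C₂ * π.X s.im * (64 * π.X s.im) := by gcongr
            _ = _ := by ring
        exact enlarge hX1 (by positivity) h8 (by linarith) (by linarith)

end Pool.Agent.H73.DZ
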