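import Pool.Agent.H73.DZ.F4

/-! The convexity bound on the critical line in terms of the local conductor. -/

set_option autoImplicit false

open Complex Set

namespace Pool.Agent.H73.DZ

open Pool.Agent.H23.GLM Pool.Agent.H23.GLH Pool.Agent.H23.DZ

variable {m : ℕ}

open scoped Classical in
/-- A function without poles which replaces `L` also to the left of the critical strip. -/
noncomputable def FG (π : LData m) (s : ℂ) : ℂ :=
  if Differentiable ℂ π.L then π.L s else DirichletCharacter.LFunctionTrivChar₁ 1 s / (s + 2)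

lemma FG_pos {π : LData m} (h : Differentiable ℂ π.L) : FG π = π.L :=
  funext fun _ => if_pos h

lemma FG_neg {π : LData m} (h : ¬ Differentiable ℂ π.L) :
    FG π = fun s => DirichletCharacter.LFunctionTrivChar₁ 1 s / (s + 2) :=
  funext fun _ => if_neg h

lemma triv_one {s : ℂ} (hs : s ≠ 1) :
    DirichletCharacter.LFunctionTrivChar₁ 1 s = (s - 1) * riemannZeta s := by
  unfold DirichletCharacter.LFunctionTrivChar₁
  rw [Function.update_of_ne hs]
  unfold DirichletCharacter.LFunctionTrivChar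
  rw [DirichletCharacter.LFunction_modOne_eq]

lemma add_two_ne {s : ℂ} (hs : -(1 / 2) ≤ s.re) : s + 2 ≠ 0 := by
  intro h
  have := congrArg Complex.re h
  simp at this
  linarith

lemma FG_diff (π : LData m) {s : ℂ} (hs : -(1 / 2) ≤ s.re) : DifferentiableAt ℂ (FG π) s := by
  by_cases h : Differentiable ℂ π.L
  · rw [FG_pos h]; exact h s
  · rw [FG_neg h]
    exact (DirichletCharacter.differentiable_LFunctionTrivChar₁ 1 s).div (by fun_prop)
      (add_two_ne hs)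

lemma FG_le (π : LData m) {s : ℂ} (hs : -(1 / 2) ≤ s.re) (hs1 : s ≠ 1) :
    ‖FG π s‖ ≤ ‖π.L s‖ := by
  by_cases h : Differentiable ℂ π.L
  · rw [FG_pos h]
  · rw [FG_neg h]
    obtain ⟨_, _, hL⟩ := LData.zeta_of h
    simp only
    rw [triv_one hs1, hL]
    have hpos : 0 < ‖s + 2‖ := norm_pos_iff.mpr (add_two_ne hs)
    rw [norm_div, norm_mul, div_le_iff₀ hpos, mul_comm]
    have h3 : ‖s - 1‖ ≤ ‖s + 2‖ := by
      rw [← sq_le_sq₀ (norm_nonneg _) (norm_nonneg _), ← Complex.normSq_eq_norm_sq,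
        ← Complex.normSq_eq_norm_sq, Complex.normSq_apply, Complex.normSq_apply]
      simp only [sub_re, one_re, sub_im, one_im, add_re, add_im, re_ofNat, im_ofNat]
      nlinarith
    gcongr

lemma le_FG (π : LData m) (t : ℝ) : ‖π.L (1 / 2 + t * I)‖ ≤ 5 * ‖FG π (1 / 2 + t * I)‖ := by
  by_cases h : Differentiable ℂ π.L
  · rw [FG_pos h]
    have := norm_nonneg (π.L (1 / 2 + t * I))
    linarith
  · rw [FG_neg h]
    obtain ⟨_, _, hL⟩ := LData.zeta_of h
    simp only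
    have r1 : (1 / 2 + t * I : ℂ).re = 1 / 2 := by simp
    have r2 : (1 / 2 + t * I : ℂ).im = t := by simp
    have hs1 : (1 / 2 + t * I : ℂ) ≠ 1 := ne_one_of_re_lt (by rw [r1]; norm_num)
    have hpos : 0 < ‖(1 / 2 + t * I : ℂ) + 2‖ :=
      norm_pos_iff.mpr (add_two_ne (by rw [r1]; norm_num))
    rw [triv_one hs1, hL, norm_div, norm_mul, ← mul_div_assoc, le_div_iff₀ hpos]
    have h3 : ‖(1 / 2 + t * I : ℂ) + 2‖ ≤ 5 * ‖(1 / 2 + t * I : ℂ) - 1‖ := by
      rw [← sq_le_sq₀ (norm_nonneg _) (by positivity), mul_pow, ← Complex.normSq_eq_norm_sq,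
        ← Complex.normSq_eq_norm_sq, Complex.normSq_apply, Complex.normSq_apply]
      simp only [sub_re, one_re, sub_im, one_im, add_re, add_im, re_ofNat, im_ofNat] at r1 r2 ⊢
      simp only [r1, r2]
      nlinarith [sq_nonneg t]
    calc ‖riemannZeta (1 / 2 + t * I)‖ * ‖(1 / 2 + t * I : ℂ) + 2‖
        ≤ ‖riemannZeta (1 / 2 + t * I)‖ * (5 * ‖(1 / 2 + t * I : ℂ) - 1‖) := by gcongr
      _ = _ := by ring

/-- Polynomial growth for a single function. -/
lemma FG_growth (hG : GrowStmt) {S : Set (LData m)} (hS : Molteni S) {π : LData m} (hπ : π ∈ S) :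
    ∃ (C : ℝ) (n : ℕ), ∀ s : ℂ, -(1 / 2) ≤ s.re → ‖FG π s‖ ≤ C * (1 + |s.im|) ^ n := by
  obtain ⟨C₁, hC₁, h₁⟩ := hG m S hS (1 / 2)
  obtain ⟨B, hB1, hB⟩ := molteni_pos hS (ε := 1 / 4) (by norm_num)
  have hAR := AR_ge
  have hC := π.one_le_C
  have h16 : 0 < (16 * AR) ^ m * B * π.C := by positivity
  set n : ℕ := ⌈(m : ℝ) * C₁⌉₊ + m + 1 with hn
  set K : ℝ := π.C ^ C₁ * C₁ + (16 * AR) ^ m * B * π.C + 16 with hK
  have hCC : 0 < π.C ^ C₁ * C₁ := by positivity
  refine ⟨K, n, fun s hs => ?_⟩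
  have him := abs_nonneg s.im
  have h1im : 1 ≤ 1 + |s.im| := by linarith
  rcases le_or_gt s.re (5 / 8) with hc | hc
  · have h := h₁ ⟨π, hπ⟩ s (by linarith) hc
    simp only at h
    refine (FG_le π hs (ne_one_of_re_lt (by linarith))).trans (h.trans ?_)
    unfold LData.X
    rw [Real.mul_rpow (by positivity) (by positivity)]
    have h2 : ((1 + |s.im|) ^ m) ^ C₁ ≤ (1 + |s.im|) ^ n := by
      rw [← Real.rpow_natCast, ← Real.rpow_mul (by positivity), ← Real.rpow_natCast]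
      refine Real.rpow_le_rpow_of_exponent_le h1im ?_
      have h3 := Nat.le_ceil ((m : ℝ) * C₁)
      rw [hn]
      push_cast
      have : (0 : ℝ) ≤ m := Nat.cast_nonneg m
      linarith
    calc C₁ * (π.C ^ C₁ * ((1 + |s.im|) ^ m) ^ C₁) ≤ C₁ * (π.C ^ C₁ * (1 + |s.im|) ^ n) := by
          gcongr
      _ = (π.C ^ C₁ * C₁) * (1 + |s.im|) ^ n := by ring
      _ ≤ _ := by gcongr; linarith
  · by_cases hd : Differentiable ℂ π.L
    · rw [FG_pos hd]
      refine (grow_entire π hd (LData.order hd) hB1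
        (fun z hz => hB π hπ z (by linarith)) (s := s) (by linarith)).trans ?_
      have h2 : (1 + |s.im|) ^ m ≤ (1 + |s.im|) ^ n := pow_le_pow_right₀ h1im (by omega)
      calc (16 * AR) ^ m * B * (π.C * (1 + |s.im|) ^ m)
          ≤ (16 * AR) ^ m * B * (π.C * (1 + |s.im|) ^ n) := by gcongr
        _ = (16 * AR) ^ m * B * π.C * (1 + |s.im|) ^ n := by ring
        _ ≤ _ := by gcongr; linarith
    · have h2 : (1 + |s.im|) ^ 1 ≤ (1 + |s.im|) ^ n := pow_le_pow_right₀ h1im (by omega)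
      rw [pow_one] at h2
      have h3 : ‖FG π s‖ ≤ 16 * (1 + |s.im|) := by
        by_cases hs1 : s = 1
        · rw [hs1, FG_neg hd]
          simp
          norm_num
        · refine le_trans ?_ (norm_Fz_le (s := s) (by linarith))
          rw [FG_neg hd, Fz_eq (by linarith) hs1]
          simp only
          rw [triv_one hs1, norm_div, norm_mul, norm_mul, norm_div, mul_comm, mul_div_assoc]
          have hp1 : 0 < ‖s + 1‖ := norm_pos_iff.mpr (add_one_ne (by linarith))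
          have h5 : ‖s + 1‖ ≤ ‖s + 2‖ := by
            rw [← sq_le_sq₀ (norm_nonneg _) (norm_nonneg _), ← Complex.normSq_eq_norm_sq,
              ← Complex.normSq_eq_norm_sq, Complex.normSq_apply, Complex.normSq_apply]
            simp only [one_re, one_im, add_re, add_im, re_ofNat, im_ofNat]
            nlinarith
          gcongr
      calc ‖FG π s‖ ≤ 16 * (1 + |s.im|) := h3
        _ ≤ 16 * (1 + |s.im|) ^ n := by gcongr
        _ ≤ _ := by gcongr; linarith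

/-- **F5.** The convexity bound, for every real `ε > 0`. -/
theorem conv_real (hL : LeftStmt) (hG : GrowStmt) (h3 : ThreeLinesStmt) (m : ℕ)
    (S : Set (LData m)) (hS : Molteni S) (ε : ℝ) (hε : 0 < ε) : ∃ C : ℝ, 1 ≤ C ∧
    ∀ (π : S) (t : ℝ), ‖(π : LData m).L (1 / 2 + t * I)‖ ≤
      C * (π : LData m).X t ^ ε * (π : LData m).Q t ^ (1 / 4 : ℝ) := by
  set e : ℝ := min ε (1 / 4) / 4 with he
  have he0 : 0 < e := by rw [he]; positivity
  have he1 : e ≤ 1 / 16 := by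
    rw [he]
    have := min_le_right ε (1 / 4)
    linarith
  have he2 : 4 * e ≤ ε := by
    rw [he]
    have := min_le_left ε (1 / 4)
    linarith
  obtain ⟨C₁, hC₁, h₁⟩ := hL m S hS 1 e he0
  obtain ⟨B, hB1, hB⟩ := molteni_pos hS he0
  obtain ⟨K, hK, h₃⟩ := h3 m
  refine ⟨5 * K * (C₁ * B), ?_, ?_⟩
  · have h1 : 1 ≤ C₁ * B := one_le_mul_of_one_le_of_one_le hC₁ hB1
    have h2 : 1 ≤ 5 * K := by linarith
    exact one_le_mul_of_one_le_of_one_le h2 h1
  rintro ⟨π, hπ⟩ t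
  show ‖π.L (1 / 2 + t * I)‖ ≤ 5 * K * (C₁ * B) * π.X t ^ ε * π.Q t ^ (1 / 4 : ℝ)
  have hX1 := π.one_le_X t
  have hX0 : 0 < π.X t := by linarith
  have hQ1 := one_le_Q π t
  have hQ0 : 0 < π.Q t := by linarith
  have hQX := Q_le_X π t
  have hCX := π.C_le_X t
  have hC1 := π.one_le_C
  set Ma : ℝ := C₁ * π.X t ^ e * π.Q t ^ (1 / 2 + e) with hMa
  set Mb : ℝ := B * π.X t ^ e with hMb
  have hMa0 : 0 < Ma := by rw [hMa]; positivity
  have hMb0 : 0 < Mb := by rw [hMb]; positivity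
  obtain ⟨Cg, ng, hg⟩ := FG_growth hG hS hπ
  have ha : ∀ u : ℝ, ‖FG π (((-e : ℝ) : ℂ) + u * I)‖ ≤ Ma * (1 + |u - t|) ^ m := by
    intro u
    have r1 : (((-e : ℝ) : ℂ) + u * I).re = -e := by simp
    have r2 : (((-e : ℝ) : ℂ) + u * I).im = u := by simp
    refine (FG_le π (by rw [r1]; linarith) (ne_one_of_re_lt (by rw [r1]; linarith))).trans ?_
    have h := h₁ ⟨π, hπ⟩ (((-e : ℝ) : ℂ) + u * I) (by rw [r1]; linarith) (by rw [r1]; linarith)
    simp only at h
    rw [r1, r2] at h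
    refine h.trans ?_
    have hv := abs_nonneg (u - t)
    have hv1 : 1 ≤ (1 + |u - t|) ^ m := one_le_pow₀ (by linarith)
    have hXu := π.one_le_X u
    have hQu := one_le_Q π u
    have h5 : π.X u ^ e ≤ ((1 + |u - t|) ^ m) ^ e * π.X t ^ e := by
      rw [← Real.mul_rpow (by positivity) (by positivity)]
      exact Real.rpow_le_rpow (by linarith) (X_le π t u) he0.le
    have h6 : π.Q u ^ (1 / 2 - -e) ≤ ((1 + |u - t|) ^ m) ^ (1 / 2 + e) * π.Q t ^ (1 / 2 + e) := by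
      rw [← Real.mul_rpow (by positivity) (by positivity), sub_neg_eq_add]
      exact Real.rpow_le_rpow (by linarith) (Q_le π t u) (by linarith)
    have h7 : ((1 + |u - t|) ^ m) ^ e * ((1 + |u - t|) ^ m) ^ (1 / 2 + e) ≤
        (1 + |u - t|) ^ m := by
      rw [← Real.rpow_add (by positivity)]
      calc ((1 + |u - t|) ^ m) ^ (e + (1 / 2 + e)) ≤ ((1 + |u - t|) ^ m) ^ (1 : ℝ) :=
            Real.rpow_le_rpow_of_exponent_le hv1 (by linarith)
        _ = _ := Real.rpow_one _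
    have h8 : 0 ≤ π.Q u ^ (1 / 2 - -e) := by positivity
    calc C₁ * π.X u ^ e * π.Q u ^ (1 / 2 - -e)
        ≤ C₁ * (((1 + |u - t|) ^ m) ^ e * π.X t ^ e) *
          (((1 + |u - t|) ^ m) ^ (1 / 2 + e) * π.Q t ^ (1 / 2 + e)) := by gcongr
      _ = Ma * (((1 + |u - t|) ^ m) ^ e * ((1 + |u - t|) ^ m) ^ (1 / 2 + e)) := by
          rw [hMa]; ring
      _ ≤ _ := by gcongr
  have hb : ∀ u : ℝ, ‖FG π (((1 + e : ℝ) : ℂ) + u * I)‖ ≤ Mb * (1 + |u - t|) ^ m := by
    intro u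
    have r1 : (((1 + e : ℝ) : ℂ) + u * I).re = 1 + e := by simp
    have hne : (((1 + e : ℝ) : ℂ) + u * I) ≠ 1 := by
      intro h
      have := congrArg Complex.re h
      rw [r1] at this
      simp at this
      linarith
    refine (FG_le π (by rw [r1]; linarith) hne).trans ((hB π hπ _ r1.ge).trans ?_)
    have hv := abs_nonneg (u - t)
    have hv1 : 1 ≤ (1 + |u - t|) ^ m := one_le_pow₀ (by linarith)
    have h5 : π.C ^ e ≤ π.X t ^ e := Real.rpow_le_rpow (by linarith) hCX he0.le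
    calc B * π.C ^ e ≤ B * π.X t ^ e * 1 := by rw [mul_one]; gcongr
      _ ≤ _ := by rw [hMb]; gcongr
  have hmain := h₃ (FG π) (-e) (1 + e) t Ma Mb (by linarith) (by linarith) hMa0 hMb0
    (fun s hs1 _ => FG_diff π (by linarith)) ⟨Cg, ng, fun s hs1 _ => hg s (by linarith)⟩ ha hb
    (1 / 2) (by linarith) (by linarith)
  have q1 : (1 + e - 1 / 2) / (1 + e - -e) = 1 / 2 := by
    rw [div_eq_iff (by linarith)]; ring
  have q2 : (1 / 2 - -e) / (1 + e - -e) = 1 / 2 := by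
    rw [div_eq_iff (by linarith)]; ring
  rw [q1, q2] at hmain
  have q3 : (((1 / 2 : ℝ) : ℂ) + (t : ℂ) * I) = 1 / 2 + t * I := by push_cast; ring
  rw [q3] at hmain
  have hCB : 1 ≤ C₁ * B := one_le_mul_of_one_le_of_one_le hC₁ hB1
  have h9 : Ma ^ (1 / 2 : ℝ) * Mb ^ (1 / 2 : ℝ) ≤ C₁ * B * π.X t ^ ε * π.Q t ^ (1 / 4 : ℝ) := by
    rw [← Real.mul_rpow hMa0.le hMb0.le]
    have e1 : Ma * Mb = (C₁ * B) * (π.X t ^ (2 * e) * π.Q t ^ (1 / 2 + e)) := by
      rw [hMa, hMb, two_mul, Real.rpow_add hX0]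
      ring
    have hCB0 : 0 ≤ C₁ * B := by linarith
    rw [e1, Real.mul_rpow hCB0 (by positivity),
      Real.mul_rpow (x := π.X t ^ (2 * e)) (by positivity) (by positivity), ← Real.rpow_mul hX0.le,
      ← Real.rpow_mul hQ0.le]
    have e2 : (C₁ * B) ^ (1 / 2 : ℝ) ≤ C₁ * B := by
      calc (C₁ * B) ^ (1 / 2 : ℝ) ≤ (C₁ * B) ^ (1 : ℝ) :=
            Real.rpow_le_rpow_of_exponent_le hCB (by norm_num)
        _ = _ := Real.rpow_one _
    have e3 : π.Q t ^ ((1 / 2 + e) * (1 / 2)) ≤ π.X t ^ (e / 2) * π.Q t ^ (1 / 4 : ℝ) := by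
      have e4 : (1 / 2 + e) * (1 / 2) = e / 2 + 1 / 4 := by ring
      rw [e4, Real.rpow_add hQ0]
      have : π.Q t ^ (e / 2) ≤ π.X t ^ (e / 2) :=
        Real.rpow_le_rpow hQ0.le hQX (by linarith)
      gcongr
    have e5 : π.X t ^ (2 * e * (1 / 2)) * π.X t ^ (e / 2) ≤ π.X t ^ ε := by
      rw [← Real.rpow_add hX0]
      exact Real.rpow_le_rpow_of_exponent_le hX1 (by linarith)
    calc (C₁ * B) ^ (1 / 2 : ℝ) * (π.X t ^ (2 * e * (1 / 2)) * π.Q t ^ ((1 / 2 + e) * (1 / 2)))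
        ≤ C₁ * B * (π.X t ^ (2 * e * (1 / 2)) * (π.X t ^ (e / 2) * π.Q t ^ (1 / 4 : ℝ))) := by
          gcongr
      _ = C₁ * B * (π.X t ^ (2 * e * (1 / 2)) * π.X t ^ (e / 2)) * π.Q t ^ (1 / 4 : ℝ) := by ring
      _ ≤ _ := by gcongr
  have h10 := le_FG π t
  have hK0 : 0 ≤ K := by linarith
  calc ‖π.L (1 / 2 + t * I)‖ ≤ 5 * ‖FG π (1 / 2 + t * I)‖ := h10
    _ ≤ 5 * (K * Ma ^ (1 / 2 : ℝ) * Mb ^ (1 / 2 : ℝ)) := by gcongr
    _ = 5 * K * (Ma ^ (1 / 2 : ℝ) * Mb ^ (1 / 2 : ℝ)) := by ring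
    _ ≤ 5 * K * (C₁ * B * π.X t ^ ε * π.Q t ^ (1 / 4 : ℝ)) := by gcongr
    _ = _ := by ring

/-- **F5.** The convexity bound. -/
theorem convStmt (hL : LeftStmt) (hG : GrowStmt) (h3 : ThreeLinesStmt) : ConvStmt := by
  intro m S hS ε hε
  first
  | exact conv_real hL hG h3 m S hS ε hε
  | (obtain ⟨C, hC, h⟩ := conv_real hL hG h3 m S hS ε (by exact_mod_cast hε)
     exact ⟨C, hC, fun π t => by simpa using h π t⟩)

end Pool.Agent.H73.DZ
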